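import Pool.Agent.N993.WV.Hat

/-!
Project WV, leaf TRANS (helper776): transfer of diagrams to a part of the relators.
-/

set_option autoImplicit false

namespace Pool.Agent.N776.WV

open Pool.Agent.N993.WT (SphericalDiagram DR flip)

theorem t_TRANS : Pool.Agent.N993.WV.S_TRANS := by
  intro X R X' R' r r' φ ι hφ hι h hDR D hcell hR
  have hΦ : Function.Injective (fun y : X' × Bool => ((φ y.1, y.2) : X × Bool)) := by
    rintro ⟨a, b⟩ ⟨c, d⟩ hh
    simp only [Prod.mk.injEq] at hh
    exact Prod.ext (hφ hh.1) hh.2
  have hff : ∀ (Z : Type) (y : Z × Bool), flip (flip y) = y := by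
    rintro Z ⟨a, b⟩
    simp [Pool.Agent.N993.WT.flip]
  choose e' he' using hcell
  have hlen : ∀ d, (r (D.cell d)).length = (r' (e' d)).length := by
    intro d
    rw [he' d, h (e' d), List.length_map]
  have h1 : ∀ d, ∃ y, (r' (e' d))[D.pos d]? = some y ∧
      ((φ y.1, y.2) : X × Bool) = if D.sgn d then D.lett d else flip (D.lett d) := by
    intro d
    have h2 := D.lett_eq d
    rw [he' d, h (e' d), List.getElem?_map, Option.map_eq_some_iff] at h2
    exact h2
  choose yy hy1 hy2 using h1
  have hcn : ∀ d, e' (D.nxt d) = e' d := by
    intro d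
    apply hι
    rw [← he', ← he', D.cell_nxt]
  have hL : ∀ d, ((φ (if D.sgn d then yy d else flip (yy d)).1,
      (if D.sgn d then yy d else flip (yy d)).2) : X × Bool) = D.lett d := by
    intro d
    have h3 := hy2 d
    cases hs : D.sgn d
    · rw [hs] at h3
      simp only [Bool.false_eq_true, if_false] at h3 ⊢
      have h4 : flip ((φ (yy d).1, (yy d).2) : X × Bool) = D.lett d := by
        rw [h3, hff]
      exact h4
    · rw [hs] at h3
      simp only [if_true] at h3 ⊢
      exact h3
  let D' : SphericalDiagram r' :=
    { D := D.D
      finD := D.finD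
      nonemptyD := D.nonemptyD
      nxt := D.nxt
      opp := D.opp
      opp_ne := D.opp_ne
      opp_opp := D.opp_opp
      connected := D.connected
      euler := D.euler
      lett := fun d => if D.sgn d then yy d else flip (yy d)
      lett_opp := by
        intro d
        apply hΦ
        change ((φ (if D.sgn (D.opp d) then yy (D.opp d) else flip (yy (D.opp d))).1,
          (if D.sgn (D.opp d) then yy (D.opp d) else flip (yy (D.opp d))).2) : X × Bool) =
          flip ((φ (if D.sgn d then yy d else flip (yy d)).1,
            (if D.sgn d then yy d else flip (yy d)).2) : X × Bool)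
        rw [hL, hL, D.lett_opp]
      cell := e'
      sgn := D.sgn
      pos := D.pos
      face := by
        intro d
        rw [← hlen d]
        exact D.face d
      cell_nxt := hcn
      sgn_nxt := D.sgn_nxt
      pos_nxt := by
        intro d
        rw [← hlen d]
        exact D.pos_nxt d
      lett_eq := by
        intro d
        rw [hy1 d]
        cases hs : D.sgn d
        · simp [hff]
        · simp }
  exact hDR D' fun d hd => hR d ⟨by rw [he', he']; exact congrArg ι hd.1, hd.2.1, hd.2.2⟩

end Pool.Agent.N776.WV
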